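import Mathlib

set_option autoImplicit false

open Polynomial Finset

namespace Pool.Agent.Helper48.Bloch

/-- multiplication by `cos (L x)` on cosine polynomials -/
noncomputable def sh (L : ℕ) (p : ℝ[X]) : ℝ[X] := C (1 / 2) * (X ^ L * p + reflect L p)

/-- real part of the value at a complex number -/
noncomputable def ev (z : ℂ) (p : ℝ[X]) : ℝ := (aeval z p).re

/-- partial first moment -/
noncomputable def G (N : ℕ) (p : ℝ[X]) : ℝ := ∑ n ∈ range (N + 1), (n : ℝ) * p.coeff n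

theorem ev_add (z : ℂ) (p q : ℝ[X]) : ev z (p + q) = ev z p + ev z q := by
  simp [ev]

theorem ev_C_mul (z : ℂ) (a : ℝ) (p : ℝ[X]) : ev z (C a * p) = a * ev z p := by
  simp [ev]

theorem sh_coeff (L : ℕ) (p : ℝ[X]) (n : ℕ) :
    (sh L p).coeff n = 1 / 2 * ((if L ≤ n then p.coeff (n - L) else 0) + p.coeff (revAt L n)) := by
  unfold sh
  rw [coeff_C_mul, coeff_add, coeff_X_pow_mul', coeff_reflect]

theorem sh_nonneg {L : ℕ} {p : ℝ[X]} (hp : ∀ n, 0 ≤ p.coeff n) (n : ℕ) :
    0 ≤ (sh L p).coeff n := by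
  rw [sh_coeff]
  have h1 := hp (n - L)
  have h2 := hp (revAt L n)
  split_ifs <;> linarith

theorem sh_coeff_zero {L : ℕ} {p : ℝ[X]} (hL : 2 * p.natDegree < L) {n : ℕ} (hn : 2 * n < L) :
    (sh L p).coeff n = 0 := by
  rw [sh_coeff, if_neg (by omega), revAt_le (by omega), coeff_eq_zero_of_natDegree_lt (by omega)]
  simp

theorem sh_coeff_self (L : ℕ) (p : ℝ[X]) : (sh L p).coeff L = p.coeff 0 := by
  rw [sh_coeff, if_pos le_rfl, revAt_le le_rfl]
  simp
  ring

theorem sh_natDegree {L : ℕ} {p : ℝ[X]} (hL : 2 * p.natDegree < L) :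
    2 * (sh L p).natDegree ≤ 3 * L := by
  have h : (sh L p).natDegree ≤ L + p.natDegree := by
    rw [natDegree_le_iff_coeff_eq_zero]
    intro n hn
    rw [sh_coeff, if_pos (by omega), coeff_eq_zero_of_natDegree_lt (by omega)]
    have : p.coeff (revAt L n) = 0 := by
      rw [revAt_eq_self_of_lt (by omega)]
      exact coeff_eq_zero_of_natDegree_lt (by omega)
    rw [this]
    simp
  omega

theorem sh_eval_one {L : ℕ} {p : ℝ[X]} (hL : p.natDegree ≤ L) : eval 1 (sh L p) = eval 1 p := by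
  unfold sh
  have h' : eval 1 (reflect L p) = eval 1 p := by
    have hi : Invertible (1 : ℝ) := invertibleOne
    have h := eval₂_reflect_mul_pow (RingHom.id ℝ) (1 : ℝ) L p hL
    simp only [invOf_one, one_pow, mul_one] at h
    exact h
  rw [eval_mul, eval_add, eval_mul, h']
  simp
  ring

theorem sh_ev {L : ℕ} {p : ℝ[X]} (hL : p.natDegree ≤ L) {z : ℂ} (hz : ‖z‖ = 1) :
    ev z (sh L p) = (z ^ L).re * ev z p := by
  have hz0 : z ≠ 0 := by
    intro h
    rw [h] at hz
    simp at hz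
  have hi : Invertible (z⁻¹ : ℂ) := invertibleOfNonzero (inv_ne_zero hz0)
  have hinv : ⅟(z⁻¹ : ℂ) = z := by
    rw [invOf_eq_inv, inv_inv]
  have h := eval₂_reflect_mul_pow (algebraMap ℝ ℂ) (z⁻¹ : ℂ) L p hL
  rw [hinv] at h
  have hconj : (z⁻¹ : ℂ) = (starRingEnd ℂ) z := by
    rw [Complex.inv_def, Complex.normSq_eq_norm_sq, hz]
    simp
  have h2 : aeval z (reflect L p) = z ^ L * (starRingEnd ℂ) (aeval z p) := by
    have h3 : aeval z (reflect L p) * (z⁻¹) ^ L = aeval (z⁻¹) p := h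
    have h4 : aeval (z⁻¹) p = (starRingEnd ℂ) (aeval z p) := by
      rw [hconj]
      exact Polynomial.aeval_conj p z
    rw [← h4, ← h3, inv_pow]
    field_simp
  unfold ev sh
  rw [map_mul, map_add, map_mul, map_pow, aeval_X, h2, aeval_C, ← mul_add, Complex.add_conj]
  simp only [Complex.coe_algebraMap]
  have : ((1 / 2 : ℝ) : ℂ) * (z ^ L * ((2 * (aeval z p).re : ℝ) : ℂ)) =
      z ^ L * (((aeval z p).re : ℝ) : ℂ) := by
    push_cast
    ring
  rw [this, Complex.re_mul_ofReal]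

theorem sh_ev_two {L : ℕ} {p : ℝ[X]} (hL : p.natDegree ≤ L) {z : ℂ} (hz : ‖z‖ = 1) :
    ev z (sh (2 * L) p) = (2 * (z ^ L).re ^ 2 - 1) * ev z p := by
  rw [sh_ev (by omega) hz]
  congr 1
  have h1 : ‖z ^ L‖ = 1 := by rw [norm_pow, hz, one_pow]
  have h2 : (z ^ L).re ^ 2 + (z ^ L).im ^ 2 = 1 := by
    have := Complex.sq_norm (z ^ L)
    rw [h1, Complex.normSq_apply] at this
    nlinarith
  rw [mul_comm 2 L, pow_mul, sq, Complex.mul_re]
  nlinarith

theorem eval_one_eq_sum {p : ℝ[X]} {D : ℕ} (hD : p.natDegree < D) :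
    eval 1 p = ∑ n ∈ range D, p.coeff n := by
  rw [eval_eq_sum_range' hD]
  simp

theorem G_le {p : ℝ[X]} (hp : ∀ n, 0 ≤ p.coeff n) {D : ℝ} (hD : (p.natDegree : ℝ) ≤ D) (N : ℕ) :
    G N p ≤ D * eval 1 p := by
  have hD0 : 0 ≤ D := le_trans (by positivity) hD
  rw [eval_one_eq_sum (D := max (N + 1) (p.natDegree + 1))
    (lt_of_lt_of_le (Nat.lt_succ_self _) (le_max_right _ _)), Finset.mul_sum]
  unfold G
  calc ∑ n ∈ range (N + 1), (n : ℝ) * p.coeff n
      ≤ ∑ n ∈ range (N + 1), D * p.coeff n := by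
        apply Finset.sum_le_sum
        intro n _
        rcases le_or_gt n p.natDegree with h | h
        · apply mul_le_mul_of_nonneg_right _ (hp n)
          exact le_trans (by exact_mod_cast h) hD
        · rw [coeff_eq_zero_of_natDegree_lt h]
          simp
    _ ≤ ∑ n ∈ range (max (N + 1) (p.natDegree + 1)), D * p.coeff n := by
        apply Finset.sum_le_sum_of_subset_of_nonneg
        · intro n hn
          rw [Finset.mem_range] at hn ⊢
          exact lt_of_lt_of_le hn (le_max_left _ _)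
        · intro n _ _
          exact mul_nonneg hD0 (hp n)

theorem G_add (N : ℕ) (p q : ℝ[X]) : G N (p + q) = G N p + G N q := by
  unfold G
  rw [← Finset.sum_add_distrib]
  apply Finset.sum_congr rfl
  intro n _
  rw [coeff_add]
  ring

/-- adding a high frequency part keeps the growth bound -/
theorem G_add_le {M R : ℝ[X]} (hM : ∀ N, G N M ≤ 8 * N) {L : ℕ} (hT : ∀ N, G N M ≤ L)
    (hR : ∀ n, 0 ≤ R.coeff n) (hR0 : ∀ n, 2 * n < L → R.coeff n = 0)
    (hRd : R.natDegree ≤ 3 * L) (hR1 : eval 1 R ≤ 1) (N : ℕ) : G N (M + R) ≤ 8 * N := by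
  rw [G_add]
  rcases lt_or_ge (2 * N) L with h | h
  · have : G N R = 0 := by
      unfold G
      apply Finset.sum_eq_zero
      intro n hn
      rw [Finset.mem_range] at hn
      rw [hR0 n (by omega)]
      simp
    rw [this, add_zero]
    exact hM N
  · have h1 : G N R ≤ (3 * L : ℝ) * eval 1 R := by
      apply G_le hR
      exact_mod_cast hRd
    have h2 : (3 * L : ℝ) * eval 1 R ≤ 3 * L * 1 :=
      mul_le_mul_of_nonneg_left hR1 (by positivity)
    have h3 := hT N
    have h4 : (L : ℝ) ≤ 2 * N := by exact_mod_cast h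
    linarith

/-- good polynomials -/
def Good (K : ℝ) : Prop := ∃ p : ℝ[X], (∀ n, 0 ≤ p.coeff n) ∧ p.coeff 0 = 1 ∧
  (∀ z : ℂ, ‖z‖ = 1 → 0 ≤ ev z p) ∧ (∀ N, G N p ≤ 8 * N) ∧
  ∃ L : ℕ, K ≤ ∑ n ∈ range L, (p.coeff n) ^ 2

theorem inner {p : ℝ[X]} {K : ℝ} (hp : ∀ n, 0 ≤ p.coeff n) (hp0 : p.coeff 0 = 1)
    (hpG : ∀ N, G N p ≤ 8 * N) {Lp : ℕ} (hpL : K ≤ ∑ n ∈ range Lp, (p.coeff n) ^ 2)
    {w : ℕ → ℝ} (hw : ∀ i, 0 ≤ w i) (J : ℕ) {c : ℝ} (hc0 : 0 ≤ c) (hc1 : c ≤ 1)
    (hc : c * (1 + 1 / 2 * ∑ i ∈ range J, (w i) ^ 2) = 1)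
    (hb : ∀ j < J, 2 * w j * (eval 1 p * (1 + ∑ i ∈ range j, w i)) +
      1 / 2 * (w j) ^ 2 * eval 1 p ≤ 1) :
    ∀ j ≤ J, ∃ u M : ℝ[X], (∀ n, 0 ≤ u.coeff n) ∧ 1 ≤ u.coeff 0 ∧
      eval 1 u = eval 1 p * (1 + ∑ i ∈ range j, w i) ∧
      (∀ z : ℂ, ‖z‖ = 1 → ∃ Y : ℝ, ev z u = Y * ev z p ∧
        ev z M = c * ev z p * (Y ^ 2 + 1 / 2 * (∑ i ∈ range J, (w i) ^ 2
          - ∑ i ∈ range j, (w i) ^ 2))) ∧
      (∀ n, 0 ≤ M.coeff n) ∧ M.coeff 0 = 1 ∧ (∀ N, G N M ≤ 8 * N) ∧
      ∃ L : ℕ, K + c ^ 2 * ∑ i ∈ range j, (w i) ^ 2 ≤ ∑ n ∈ range L, (M.coeff n) ^ 2 := by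
  intro j
  induction j with
  | zero =>
    intro _
    refine ⟨p, p, hp, hp0.ge, by simp, ?_, hp, hp0, hpG, Lp, by simpa using hpL⟩
    intro z _
    refine ⟨1, by simp, ?_⟩
    simp only [Finset.range_zero, Finset.sum_empty, sub_zero, one_pow]
    calc ev z p = (c * (1 + 1 / 2 * ∑ i ∈ range J, (w i) ^ 2)) * ev z p := by rw [hc, one_mul]
      _ = _ := by ring
  | succ j ih =>
    intro hj
    obtain ⟨u, M, hu, hu0, hu1, hY, hM, hM0, hMG, L0, hL0⟩ := ih (by omega)
    -- choose the frequency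
    obtain ⟨L1, hL1⟩ : ∃ L1 : ℕ, ((M.natDegree : ℝ) + 1) * eval 1 M ≤ L1 := exists_nat_ge _
    set L : ℕ := L1 + L0 + 2 * u.natDegree + 2 * p.natDegree + 2 * M.natDegree + 1 with hL
    set R : ℝ[X] := C c * (C (2 * w j) * sh L u + C (1 / 2 * (w j) ^ 2) * sh (2 * L) p) with hR
    have hRnn : ∀ n, 0 ≤ R.coeff n := by
      intro n
      rw [hR, coeff_C_mul, coeff_add, coeff_C_mul, coeff_C_mul]
      have h1 := sh_nonneg (L := L) hu n
      have h2 := sh_nonneg (L := 2 * L) hp n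
      have h3 := hw j
      exact mul_nonneg hc0 (add_nonneg (mul_nonneg (mul_nonneg (by norm_num) h3) h1)
        (mul_nonneg (mul_nonneg (by norm_num) (sq_nonneg _)) h2))
    have hRz : ∀ n, 2 * n < L → R.coeff n = 0 := by
      intro n hn
      rw [hR, coeff_C_mul, coeff_add, coeff_C_mul, coeff_C_mul,
        sh_coeff_zero (by omega) hn, sh_coeff_zero (by omega) (by omega)]
      simp
    have hRd : R.natDegree ≤ 3 * L := by
      rw [hR]
      refine (natDegree_C_mul_le _ _).trans ?_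
      refine (natDegree_add_le _ _).trans ?_
      apply max_le
      · refine (natDegree_C_mul_le _ _).trans ?_
        have := sh_natDegree (L := L) (p := u) (by omega)
        omega
      · refine (natDegree_C_mul_le _ _).trans ?_
        have := sh_natDegree (L := 2 * L) (p := p) (by omega)
        omega
    have hR1 : eval 1 R ≤ 1 := by
      rw [hR, eval_mul, eval_C, eval_add, eval_mul, eval_mul, eval_C, eval_C,
        sh_eval_one (by omega), sh_eval_one (by omega), hu1]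
      have h1 := hb j (by omega)
      have h2 : 0 ≤ 2 * w j * (eval 1 p * (1 + ∑ i ∈ range j, w i)) +
          1 / 2 * (w j) ^ 2 * eval 1 p := by
        have h3 : 0 ≤ eval 1 p := by
          rw [eval_one_eq_sum (Nat.lt_succ_self _)]
          exact Finset.sum_nonneg (fun n _ => hp n)
        have h4 : 0 ≤ ∑ i ∈ range j, w i := Finset.sum_nonneg (fun i _ => hw i)
        have h5 := hw j
        exact add_nonneg (mul_nonneg (mul_nonneg (by norm_num) h5)
          (mul_nonneg h3 (by linarith))) (mul_nonneg (mul_nonneg (by norm_num) (sq_nonneg _)) h3)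
      exact mul_le_one₀ hc1 h2 h1
    refine ⟨u + C (w j) * sh L p, M + R, ?_, ?_, ?_, ?_, ?_, ?_, ?_, L + 1, ?_⟩
    · intro n
      rw [coeff_add, coeff_C_mul]
      have h1 := hu n
      have h2 := mul_nonneg (hw j) (sh_nonneg (L := L) hp n)
      linarith
    · rw [coeff_add, coeff_C_mul]
      have h2 := mul_nonneg (hw j) (sh_nonneg (L := L) hp 0)
      linarith
    · rw [eval_add, eval_mul, eval_C, sh_eval_one (by omega), hu1, Finset.sum_range_succ]
      ring
    · intro z hz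
      obtain ⟨Y, hY1, hY2⟩ := hY z hz
      refine ⟨Y + w j * (z ^ L).re, ?_, ?_⟩
      · rw [ev_add, ev_C_mul, sh_ev (by omega) hz, hY1]
        ring
      · rw [ev_add, hR, ev_C_mul, ev_add, ev_C_mul, ev_C_mul, sh_ev (by omega) hz,
          sh_ev_two (by omega) hz, hY1, hY2, Finset.sum_range_succ]
        ring
    · intro n
      rw [coeff_add]
      exact add_nonneg (hM n) (hRnn n)
    · rw [coeff_add, hM0, hRz 0 (by omega), add_zero]
    · apply G_add_le hMG _ hRnn hRz hRd hR1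
      intro N
      have h1 : G N M ≤ ((M.natDegree : ℝ) + 1) * eval 1 M := by
        apply G_le hM
        linarith
      have h2 : (L1 : ℝ) ≤ L := by
        have : L1 ≤ L := by omega
        exact_mod_cast this
      linarith
    · have hLL : L0 ≤ L := by omega
      have h1 : ∑ n ∈ range L0, (M.coeff n) ^ 2 ≤ ∑ n ∈ range L, ((M + R).coeff n) ^ 2 := by
        calc ∑ n ∈ range L0, (M.coeff n) ^ 2 ≤ ∑ n ∈ range L, (M.coeff n) ^ 2 :=
              Finset.sum_le_sum_of_subset_of_nonneg (Finset.range_mono hLL)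
                (fun n _ _ => sq_nonneg _)
          _ ≤ _ := by
              apply Finset.sum_le_sum
              intro n _
              rw [coeff_add]
              exact pow_le_pow_left₀ (hM n) (le_add_of_nonneg_right (hRnn n)) 2
      have h2 : c * w j ≤ (M + R).coeff L := by
        rw [coeff_add, hR, coeff_C_mul, coeff_add, coeff_C_mul, coeff_C_mul, sh_coeff_self]
        have h3 := hM L
        have h4 := sh_nonneg (L := 2 * L) hp L
        have h5 := hw j
        have h6 : 0 ≤ c * (1 / 2 * w j ^ 2 * (sh (2 * L) p).coeff L) :=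
          mul_nonneg hc0 (mul_nonneg (mul_nonneg (by norm_num) (sq_nonneg _)) h4)
        have h8 : w j * 1 ≤ w j * u.coeff 0 := mul_le_mul_of_nonneg_left hu0 h5
        have h7 : c * w j ≤ c * (2 * w j * u.coeff 0) := by
          apply mul_le_mul_of_nonneg_left _ hc0
          linarith
        have h9 : c * (2 * w j * u.coeff 0 + 1 / 2 * w j ^ 2 * (sh (2 * L) p).coeff L) =
          c * (2 * w j * u.coeff 0) + c * (1 / 2 * w j ^ 2 * (sh (2 * L) p).coeff L) := by ring
        rw [h9]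
        linarith
      have h3 : (c * w j) ^ 2 ≤ ((M + R).coeff L) ^ 2 :=
        pow_le_pow_left₀ (mul_nonneg hc0 (hw j)) h2 2
      rw [Finset.sum_range_succ, Finset.sum_range_succ]
      have h4 : c ^ 2 * (∑ i ∈ range j, w i ^ 2 + w j ^ 2) =
          c ^ 2 * ∑ i ∈ range j, w i ^ 2 + (c * w j) ^ 2 := by ring
      rw [h4]
      linarith

theorem sum_inv_sqrt (j : ℕ) : ∑ i ∈ range j, 1 / √((i : ℝ) + 1) ≤ 2 * √(j : ℝ) := by
  induction j with
  | zero => simp
  | succ j ih =>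
    rw [Finset.sum_range_succ]
    have h1 : 0 ≤ √(j : ℝ) := Real.sqrt_nonneg _
    have h2 : 0 < √((j : ℝ) + 1) := Real.sqrt_pos.2 (by positivity)
    have h3 : √(j : ℝ) ^ 2 = j := Real.sq_sqrt (by positivity)
    have h4 : √((j : ℝ) + 1) ^ 2 = j + 1 := Real.sq_sqrt (by positivity)
    have h5 : √(j : ℝ) ≤ √((j : ℝ) + 1) := Real.sqrt_le_sqrt (by linarith)
    have h6 : 1 / √((j : ℝ) + 1) ≤ 2 * (√((j : ℝ) + 1) - √(j : ℝ)) := by
      rw [div_le_iff₀ h2]
      nlinarith
    push_cast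
    linarith

theorem Good.step {K : ℝ} (h : Good K) : Good (K + 1 / 4) := by
  obtain ⟨p, hp, hp0, hpe, hpG, Lp, hpL⟩ := h
  set m : ℝ := eval 1 p with hm
  have hm1 : 1 ≤ m := by
    rw [hm, eval_one_eq_sum (Nat.lt_succ_self _), ← hp0]
    exact Finset.single_le_sum (f := fun n => p.coeff n) (fun n _ => hp n)
      (Finset.mem_range.2 (Nat.succ_pos _))
  set d : ℝ := 1 / (8 * m) with hd
  have hd0 : 0 < d := by positivity
  have hdm : m * d = 1 / 8 := by
    rw [hd]
    field_simp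
  have hd8 : d ≤ 1 / 8 := by nlinarith
  set w : ℕ → ℝ := fun i => d * (1 / √((i : ℝ) + 1)) with hwdef
  have hw : ∀ i, 0 ≤ w i := fun i => by positivity
  have hwsum : ∀ j, ∑ i ∈ range j, w i ≤ 2 * d * √(j : ℝ) := by
    intro j
    rw [hwdef, ← Finset.mul_sum]
    have := sum_inv_sqrt j
    nlinarith
  have hwsq : ∀ i, (w i) ^ 2 = d ^ 2 * (1 / ((i : ℝ) + 1)) := by
    intro i
    have h : (1 / √((i : ℝ) + 1)) ^ 2 = 1 / ((i : ℝ) + 1) := by
      rw [div_pow, Real.sq_sqrt (by positivity), one_pow]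
    simp only [hwdef]
    rw [mul_pow, h]
  have hwle : ∀ i, w i ≤ d := by
    intro i
    have h1 : 1 ≤ √((i : ℝ) + 1) := by
      rw [Real.one_le_sqrt]
      have : (0 : ℝ) ≤ i := by positivity
      linarith
    have h2 : 1 / √((i : ℝ) + 1) ≤ 1 := by
      rw [div_le_one (by linarith)]
      exact h1
    simp only [hwdef]
    nlinarith
  have hwS : ∀ j, w j * ∑ i ∈ range j, w i ≤ 2 * d ^ 2 := by
    intro j
    have h1 : 0 < √((j : ℝ) + 1) := Real.sqrt_pos.2 (by positivity)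
    have h2 : √(j : ℝ) ≤ √((j : ℝ) + 1) := Real.sqrt_le_sqrt (by linarith)
    calc w j * ∑ i ∈ range j, w i ≤ w j * (2 * d * √(j : ℝ)) :=
          mul_le_mul_of_nonneg_left (hwsum j) (hw j)
      _ ≤ w j * (2 * d * √((j : ℝ) + 1)) := by
          apply mul_le_mul_of_nonneg_left _ (hw j)
          apply mul_le_mul_of_nonneg_left h2 (by positivity)
      _ = 2 * d ^ 2 := by
          simp only [hwdef]
          field_simp
  -- choose `J`
  have hdiv : ∃ J : ℕ, 1 ≤ ∑ i ∈ range J, (w i) ^ 2 := by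
    have h1 := Real.tendsto_sum_range_one_div_nat_succ_atTop
    obtain ⟨J, hJ⟩ := (h1.eventually (Filter.eventually_ge_atTop (1 / d ^ 2))).exists
    refine ⟨J, ?_⟩
    have h2 : ∑ i ∈ range J, (w i) ^ 2 = d ^ 2 * ∑ i ∈ range J, 1 / ((i : ℝ) + 1) := by
      rw [Finset.mul_sum]
      exact Finset.sum_congr rfl (fun i _ => hwsq i)
    rw [h2]
    calc (1 : ℝ) = d ^ 2 * (1 / d ^ 2) := by field_simp
      _ ≤ _ := mul_le_mul_of_nonneg_left hJ (by positivity)
  set J := Nat.find hdiv with hJ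
  have hJ1 : 1 ≤ ∑ i ∈ range J, (w i) ^ 2 := Nat.find_spec hdiv
  have hJ2 : ∑ i ∈ range J, (w i) ^ 2 ≤ 2 := by
    rcases Nat.eq_zero_or_pos J with h0 | h0
    · rw [h0]
      simp
    · obtain ⟨J', hJ'⟩ : ∃ J', J = J' + 1 := ⟨J - 1, by omega⟩
      have h1 : ¬ (1 ≤ ∑ i ∈ range J', (w i) ^ 2) := Nat.find_min hdiv (by omega)
      rw [hJ', Finset.sum_range_succ]
      have h2 := hwle J'
      have h3 := hw J'
      have h4 : w J' ^ 2 ≤ 1 := by nlinarith
      linarith
  set S : ℝ := ∑ i ∈ range J, (w i) ^ 2 with hS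
  set c : ℝ := 1 / (1 + 1 / 2 * S) with hc
  have hc0 : 0 ≤ c := by positivity
  have hc1 : c ≤ 1 := by
    rw [hc, div_le_one (by positivity)]
    linarith
  have hc2 : 1 / 2 ≤ c := by
    rw [hc, div_le_div_iff₀ (by norm_num) (by positivity)]
    linarith
  have hcS : c * (1 + 1 / 2 * S) = 1 := by
    rw [hc]
    field_simp
  have hb : ∀ j < J, 2 * w j * (m * (1 + ∑ i ∈ range j, w i)) + 1 / 2 * (w j) ^ 2 * m ≤ 1 := by
    intro j _
    have h1 := hwS j
    have h2 := hwle j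
    have h3 := hw j
    have h4 : (w j) ^ 2 ≤ d ^ 2 := pow_le_pow_left₀ h3 h2 2
    have h5 : m * d ^ 2 ≤ 1 / 64 := by nlinarith
    have h6 : 2 * w j * (m * (1 + ∑ i ∈ range j, w i)) + 1 / 2 * (w j) ^ 2 * m =
        2 * (m * w j) + 2 * (m * (w j * ∑ i ∈ range j, w i)) + 1 / 2 * (m * (w j) ^ 2) := by ring
    have h7 : m * w j ≤ m * d := mul_le_mul_of_nonneg_left h2 (by linarith)
    have h8 : m * (w j * ∑ i ∈ range j, w i) ≤ m * (2 * d ^ 2) :=
      mul_le_mul_of_nonneg_left h1 (by linarith)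
    have h9 : m * (w j) ^ 2 ≤ m * d ^ 2 := mul_le_mul_of_nonneg_left h4 (by linarith)
    rw [h6]
    linarith
  obtain ⟨u, M, -, -, -, hY, hM, hM0, hMG, L, hL⟩ :=
    inner hp hp0 hpG hpL hw J hc0 hc1 hcS hb J le_rfl
  refine ⟨M, hM, hM0, ?_, hMG, L, ?_⟩
  · intro z hz
    obtain ⟨Y, -, hY2⟩ := hY z hz
    rw [hY2]
    have := hpe z hz
    rw [sub_self]
    positivity
  · have h1 : 1 / 4 ≤ c ^ 2 * S := by
      have : (1 / 2 : ℝ) ^ 2 ≤ c ^ 2 := pow_le_pow_left₀ (by norm_num) hc2 2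
      nlinarith
    linarith

theorem Good.mono {K K' : ℝ} (h : Good K) (hK : K' ≤ K) : Good K' := by
  obtain ⟨p, hp, hp0, hpe, hpG, Lp, hpL⟩ := h
  exact ⟨p, hp, hp0, hpe, hpG, Lp, hK.trans hpL⟩

theorem good_zero : Good 0 := by
  refine ⟨1, ?_, by simp, ?_, ?_, 0, by simp⟩
  · intro n
    rw [coeff_one]
    split_ifs <;> norm_num
  · intro z _
    simp [ev]
  · intro N
    have : G N 1 = 0 := by
      unfold G
      apply Finset.sum_eq_zero
      intro n _
      rw [coeff_one]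
      split_ifs with h
      · rw [h]
        simp
      · simp
    rw [this]
    positivity

theorem good_all (K : ℝ) : Good K := by
  have h : ∀ n : ℕ, Good (n * (1 / 4)) := by
    intro n
    induction n with
    | zero => simpa using good_zero
    | succ n ih =>
      have := ih.step
      refine this.mono ?_
      push_cast
      linarith
  obtain ⟨n, hn⟩ := exists_nat_ge (4 * K)
  exact (h n).mono (by linarith)

/-- a polynomial whose real part is nonnegative on the unit circle has nonnegative real part in the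
disc -/
theorem ev_nonneg_disc {p : ℝ[X]} (hp : ∀ z : ℂ, ‖z‖ = 1 → 0 ≤ ev z p) {z : ℂ} (hz : ‖z‖ < 1) :
    0 ≤ ev z p := by
  have hd : Differentiable ℂ (fun w : ℂ => Complex.exp (-(aeval w p))) := by
    apply Differentiable.cexp
    apply Differentiable.neg
    exact Polynomial.differentiable_aeval p
  have h := Complex.norm_le_of_forall_mem_frontier_norm_le (U := Metric.ball (0 : ℂ) 1)
    Metric.isBounded_ball hd.diffContOnCl (C := 1) (fun w hw => by
      rw [frontier_ball _ one_ne_zero, mem_sphere_zero_iff_norm] at hw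
      rw [Complex.norm_exp, Real.exp_le_one_iff, Complex.neg_re]
      have := hp w hw
      unfold ev at this
      linarith) (z := z) (by
        apply subset_closure
        rwa [mem_ball_zero_iff])
  rw [Complex.norm_exp, Real.exp_le_one_iff, Complex.neg_re] at h
  unfold ev
  linarith

end Pool.Agent.Helper48.Bloch
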